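import Pool.Agent.PLX.StmtsA

set_option autoImplicit false

namespace Pool.Agent.PLX.H77

/-- decomposition along two complementary subspaces, linear in the point -/
theorem proj {A : Type} [AddCommGroup A] [Module ℚ A] (p q : Submodule ℚ A) (h : IsCompl p q) :
    ∃ T : A →ₗ[ℚ] p, ∀ x : A, x - (T x : A) ∈ q := by
  refine ⟨Submodule.projectionOnto p q h, fun x => ?_⟩
  rw [← Submodule.projectionOnto_apply_eq_zero_iff h, map_sub,
    Submodule.projectionOnto_apply_left, sub_self]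

theorem exs : ExsStmt := by
  intro A _ _ N W t₁ t₂ k l hN h1 h2 hk hl hk2 hl1
  obtain ⟨T, hT⟩ := proj (N t₂) (N k) (hN t₂ h2 k hk (Ne.symm hk2))
  obtain ⟨U, hU⟩ := proj (N t₁) (N l) (hN t₁ h1 l hl (Ne.symm hl1))
  refine ⟨U ∘ₗ (N t₂).subtype ∘ₗ T ∘ₗ (N t₁).subtype, fun y => ?_⟩
  refine ⟨(T (y : A) : A), (T (y : A)).2, hT y, ?_⟩
  have h3 := (N l).neg_mem (hU (T (y : A) : A))
  rw [neg_sub] at h3
  exact h3

end Pool.Agent.PLX.H77
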